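import Mathlib
import Pool.Agent.L7h19.FD.Stm

/-!
# Project FD (helper19; MP_157626_nt): S_CFD, the combinatorial lemma for `LF`

For a label `i = (j, (u, x), h)` let `pj τ i = u` if `τ`, `x` if not `τ`, and `ty j` the set of the
possible values for the labels of the type `j` (everything or `{0}`). The map
`i ↦ (j, pj τ i, h)` is injective on `W = UL U S` (two labels with the same image differ by `(0, y)`
(by `(y, 0)`), and by `QF` some label of `U ∪ S` would be linked with one of them). So the sum of the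
weights is at most the sum of `be` over all `(j, t, h)` with `t ∈ ty j`, and if there is equality then
each label of `S` has the same image as a label of `W`, hence is equal to it.
-/

set_option autoImplicit false
set_option linter.unusedSectionVars false

namespace Pool.Agent.L7h89.FD

open Finset Pool.Agent.L7h19.FD
open Pool.Agent.L7h19.IS (UL)

variable {J : Type} [Fintype J] [DecidableEq J] {c : Fin 3} {r : ℕ}

/-- the relevant component -/
def pj (τ : Bool) {cls : J → Fin 4} (i : LabF cls c r) : Fin r → ZMod 2 :=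
  if τ = true then i.1.2.1.1 else i.1.2.1.2

/-- the other component -/
def pk (τ : Bool) {cls : J → Fin 4} (i : LabF cls c r) : Fin r → ZMod 2 :=
  if τ = true then i.1.2.1.2 else i.1.2.1.1

/-- are all values of `pj` possible? -/
def Al' (τ : Bool) (c : Fin 3) (c' : Fin 4) : Prop :=
  c' = 3 ∨ (τ = true ∧ c' = c.castSucc) ∨ (τ = false ∧ c' ≠ c.castSucc)

instance (τ : Bool) (c : Fin 3) (c' : Fin 4) : Decidable (Al' τ c c') := by
  unfold Al'
  infer_instance

/-- the image of the label -/
def fi (τ : Bool) {cls : J → Fin 4} (i : LabF cls c r) : J × (Fin r → ZMod 2) × Bool :=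
  (i.1.1, pj τ i, i.1.2.2)

/-- the possible images -/
def TT (τ : Bool) (cls : J → Fin 4) (c : Fin 3) (r : ℕ) : Finset (J × (Fin r → ZMod 2) × Bool) :=
  univ.filter (fun x => Al' τ c (cls x.1) ∨ x.2.1 = 0)

/-- the bound for the weights -/
noncomputable def be (τ : Bool) (cls : J → Fin 4) (c : Fin 3) (μ : J → ℝ) (a b : ℕ)
    (x : J × (Fin r → ZMod 2) × Bool) : ℝ :=
  (if cls x.1 = c.castSucc ∨ cls x.1 = 3 then
    ((if x.2.1 = 0 ∨ τ = false then 1 - μ x.1 else 0) + μ x.1 / 2 ^ a) else 1) *
    (if cls x.1 = c.castSucc then 1 else 1 / 2 ^ b) / 2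

lemma be_pos (τ : Bool) (cls : J → Fin 4) {μ : J → ℝ} (hμ : ∀ j, 0 < μ j ∧ μ j ≤ 1) (a b : ℕ)
    (x : J × (Fin r → ZMod 2) × Bool) : 0 < be τ cls c μ a b x := by
  obtain ⟨h1, h2⟩ := hμ x.1
  have h3 : 0 < μ x.1 / 2 ^ a := by positivity
  have h4 : 0 < (if cls x.1 = c.castSucc ∨ cls x.1 = 3 then
    ((if x.2.1 = 0 ∨ τ = false then 1 - μ x.1 else 0) + μ x.1 / 2 ^ a) else 1) := by
    split_ifs <;> linarith
  have h5 : (0 : ℝ) < (if cls x.1 = c.castSucc then 1 else 1 / 2 ^ b) := by
    split_ifs <;> positivity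
  unfold be
  positivity

lemma wv_le (τ : Bool) {cls : J → Fin 4} {μ : J → ℝ} (hμ : ∀ j, 0 < μ j ∧ μ j ≤ 1) (a b : ℕ)
    (i : LabF cls c r) :
    wv cls c a b r i (μ i.1.1) (1 - μ i.1.1) ≤ be τ cls c μ a b (fi τ i) := by
  obtain ⟨h1, h2⟩ := hμ i.1.1
  have h5 : (0 : ℝ) ≤ (if cls i.1.1 = c.castSucc then 1 else 1 / 2 ^ b) := by
    split_ifs <;> positivity
  unfold wv be fi
  dsimp only
  refine div_le_div_of_nonneg_right (mul_le_mul_of_nonneg_right ?_ h5) (by norm_num)
  by_cases h6 : cls i.1.1 = c.castSucc ∨ cls i.1.1 = 3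
  · rw [if_pos h6, if_pos h6]
    cases τ
    · simp only [or_true, if_true]
      split_ifs <;> linarith
    · unfold pj
      simp only [if_true, Bool.true_eq_false, or_false, le_refl]
  · rw [if_neg h6, if_neg h6]
    linarith

lemma fi_mem (τ : Bool) {cls : J → Fin 4} (i : LabF cls c r) : fi τ i ∈ TT τ cls c r := by
  unfold TT fi Al' pj
  rw [mem_filter]
  refine ⟨mem_univ _, ?_⟩
  obtain ⟨h1, h2, -⟩ := i.2
  by_cases h3 : cls i.1.1 = 3
  · exact Or.inl (Or.inl h3)
  · by_cases h4 : cls i.1.1 = c.castSucc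
    · cases τ
      · right
        simpa using h1 h4
      · left
        right
        left
        exact ⟨rfl, h4⟩
    · cases τ
      · left
        right
        right
        exact ⟨rfl, h4⟩
      · right
        simpa using h2 h4 h3

/-- unlinked labels -/
lemma unl (τ : Bool) {cls : J → Fin 4} (i l : LabF cls c r) (h : LF cls c r i l = LF cls c r l i) :
    pk τ i ⬝ᵥ pj τ l = pj τ i ⬝ᵥ pk τ l := by
  have h0 : ∀ x y : ZMod 2, (x ≠ 0 ↔ y ≠ 0) → x = y := by decide
  unfold LF at h
  rw [decide_eq_decide] at h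
  have h1 := h0 _ _ h
  unfold pj pk
  cases τ
  · simp only [Bool.false_eq_true, if_false]
    rw [h1, dotProduct_comm]
  · simp only [if_true]
    rw [h1, dotProduct_comm]

/-- two labels with the same image, unlinked to labels which represent all images -/
lemma inj_aux (τ : Bool) {cls : J → Fin 4} {V : Finset (LabF cls c r)} (hQ : QF cls c τ r V)
    (i l : LabF cls c r) (h : fi τ i = fi τ l)
    (hV : ∀ s ∈ V, ∃ t : LabF cls c r, pj τ t = pj τ s ∧
      LF cls c r i t = LF cls c r t i ∧ LF cls c r l t = LF cls c r t l) : i = l := by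
  have hj : i.1.1 = l.1.1 := congrArg (fun x => x.1) h
  have hp : pj τ i = pj τ l := congrArg (fun x => x.2.1) h
  have hb : i.1.2.2 = l.1.2.2 := congrArg (fun x => x.2.2) h
  have hk : pk τ i = pk τ l := by
    by_contra hne
    have hne' : pk τ i - pk τ l ≠ 0 := sub_ne_zero.2 hne
    obtain ⟨s, hs, hs1⟩ := hQ _ hne'
    obtain ⟨t, ht, h1, h2⟩ := hV s hs
    apply hs1
    have h3 := unl τ i t h1
    have h4 := unl τ l t h2
    have h5 : (if τ = true then s.1.2.1.1 else s.1.2.1.2) = pj τ t := by
      rw [ht]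
      rfl
    rw [h5, sub_dotProduct, h3, h4, hp, sub_self]
  apply Subtype.ext
  refine Prod.ext hj (Prod.ext (Prod.ext ?_ ?_) hb)
  · unfold pj pk at *
    cases τ
    · simpa using hk
    · simpa using hp
  · unfold pj pk at *
    cases τ
    · simpa using hp
    · simpa using hk

lemma three_ne : ∀ c : Fin 3, (3 : Fin 4) ≠ c.castSucc := by decide

/-- the sum of the bounds over the images of type `j` -/
noncomputable def tj (τ : Bool) (c' : Fin 4) (c : Fin 3) (m : ℝ) (a b r : ℕ) : ℝ :=
  if τ = true then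
    (if c' = c.castSucc then 1 - m + 2 ^ r * (m / 2 ^ a) else
      if c' = 3 then (1 - m + 2 ^ r * (m / 2 ^ a)) * (1 / 2 ^ b) else 1 / 2 ^ b)
  else
    (if c' = c.castSucc then 1 - m + m / 2 ^ a else
      if c' = 3 then 2 ^ r * ((1 - m + m / 2 ^ a) * (1 / 2 ^ b)) else 2 ^ r * (1 / 2 ^ b))

lemma sum_be (τ : Bool) (cls : J → Fin 4) (c : Fin 3) (μ : J → ℝ) (a b r : ℕ) :
    ∑ x ∈ TT τ cls c r, be τ cls c μ a b x = ∑ j, tj τ (cls j) c (μ j) a b r := by
  have hcV : (Fintype.card (Fin r → ZMod 2) : ℝ) = 2 ^ r := by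
    simp [ZMod.card]
  unfold TT
  rw [sum_filter, Fintype.sum_prod_type]
  refine sum_congr rfl fun j _ => ?_
  rw [Fintype.sum_prod_type]
  simp only [Fintype.sum_bool]
  unfold be tj Al'
  dsimp only
  have h3c : (3 : Fin 4) ≠ c.castSucc := three_ne c
  by_cases h1 : cls j = c.castSucc
  · have h2 : cls j ≠ 3 := by
      rw [h1]
      exact h3c.symm
    cases τ
    · simp only [h1, h3c.symm, true_and, ne_eq, not_true_eq_false, and_false, or_false, false_or,
        Bool.false_eq_true, if_false, if_true, true_or, or_true, false_and]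
      rw [Finset.sum_eq_single 0]
      · simp only [if_true]
        ring
      · intro x _ hx
        simp [hx]
      · intro h
        exact absurd (mem_univ _) h
    · simp only [h1, true_and, true_or, or_true, if_true, Bool.true_eq_false, or_false, mul_one]
      rw [show (∑ x : Fin r → ZMod 2, (((if x = 0 then 1 - μ j else 0) + μ j / 2 ^ a) / 2 +
        ((if x = 0 then 1 - μ j else 0) + μ j / 2 ^ a) / 2)) =
        ∑ x : Fin r → ZMod 2, ((if x = 0 then 1 - μ j else 0) + μ j / 2 ^ a) from
        sum_congr rfl fun x _ => by ring]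
      rw [sum_add_distrib, sum_ite_eq' univ (0 : Fin r → ZMod 2) (fun _ => 1 - μ j), sum_const,
        card_univ, nsmul_eq_mul, hcV, if_pos (mem_univ _)]
  · by_cases h2 : cls j = 3
    · cases τ
      · simp only [h2, h3c, true_or, or_true, if_true, if_false, Bool.false_eq_true]
        rw [sum_const, card_univ, nsmul_eq_mul, hcV]
        ring
      · simp only [h2, h3c, true_or, or_true, if_true, if_false, Bool.true_eq_false, or_false]
        rw [show (∑ x : Fin r → ZMod 2, (((if x = 0 then 1 - μ j else 0) + μ j / 2 ^ a) *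
          (1 / 2 ^ b) / 2 + ((if x = 0 then 1 - μ j else 0) + μ j / 2 ^ a) * (1 / 2 ^ b) / 2)) =
          (∑ x : Fin r → ZMod 2, ((if x = 0 then 1 - μ j else 0) + μ j / 2 ^ a)) * (1 / 2 ^ b) from by
            rw [sum_mul]
            exact sum_congr rfl fun x _ => by ring]
        rw [sum_add_distrib, sum_ite_eq' univ (0 : Fin r → ZMod 2) (fun _ => 1 - μ j), sum_const,
          card_univ, nsmul_eq_mul, hcV, if_pos (mem_univ _)]
    · cases τ
      · simp only [h1, h2, ne_eq, not_false_eq_true, and_true, or_true, true_or, if_true, if_false,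
          Bool.false_eq_true, or_false, one_mul]
        rw [sum_const, card_univ, nsmul_eq_mul, hcV]
        ring
      · simp only [h1, h2, and_false, false_and, or_false, false_or, if_true, if_false,
          Bool.true_eq_false, one_mul]
        rw [Finset.sum_eq_single 0]
        · simp only [if_true]
          ring
        · intro x _ hx
          simp [hx]
        · intro h
          exact absurd (mem_univ _) h

lemma sum_tj (cls : J → Fin 4) (c : Fin 3) {μ : J → ℝ} (hμ : ∀ j, 0 < μ j ∧ μ j ≤ 1) {τ : Bool}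
    {a b r : ℕ} (h : (τ = false ∧ a = 0 ∧ b = r) ∨ (τ = true ∧ a = r ∧ b = 0) ∨
      (τ = true ∧ a = 0 ∧ b = r ∧ 1 ≤ r ∧
        2 ^ r * ∑ j ∈ univ.filter (fun j => cls j = c.castSucc), μ j ≤
          ((univ.filter (fun j => cls j ≠ c.castSucc ∧ cls j ≠ 3)).card : ℝ) +
            ∑ j ∈ univ.filter (fun j => cls j = 3), (1 - μ j))) :
    ∑ j, tj τ (cls j) c (μ j) a b r ≤ Fintype.card J := by
  have h3c : (3 : Fin 4) ≠ c.castSucc := three_ne c
  have h2r : (2 : ℝ) ^ r ≠ 0 := by positivity
  have hone : (Fintype.card J : ℝ) = ∑ j : J, (1 : ℝ) := by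
    simp
  rcases h with ⟨h1, h2, h3⟩ | ⟨h1, h2, h3⟩ | ⟨h1, h2, h3, h4, h5⟩
  · subst h1
    subst h2
    subst h3
    rw [hone]
    refine sum_le_sum fun j _ => le_of_eq ?_
    unfold tj
    simp only [Bool.false_eq_true, if_false]
    split_ifs <;> field_simp <;> ring
  · subst h1
    subst h2
    subst h3
    rw [hone]
    refine sum_le_sum fun j _ => le_of_eq ?_
    unfold tj
    simp only [if_true]
    split_ifs <;> field_simp <;> ring
  · subst h1
    subst h2
    subst h3
    have h6 : ∀ j, tj true (cls j) c (μ j) 0 b b = 1 +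
        (1 - 1 / 2 ^ b) * ((if cls j = c.castSucc then 2 ^ b * μ j else 0) -
          (if cls j ≠ c.castSucc ∧ cls j ≠ 3 then 1 else 0) -
          (if cls j = 3 then 1 - μ j else 0)) := by
      intro j
      unfold tj
      by_cases h7 : cls j = c.castSucc
      · simp only [h7, h3c.symm, if_true, if_false, ne_eq, not_true_eq_false, false_and, pow_zero]
        field_simp
        ring
      · by_cases h8 : cls j = 3
        · simp only [h8, h3c, if_true, if_false, ne_eq, not_true_eq_false, and_false, pow_zero]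
          field_simp
          ring
        · simp only [h7, h8, if_true, if_false, ne_eq, not_false_eq_true, and_true, pow_zero]
          ring
    rw [sum_congr rfl fun j _ => h6 j, sum_add_distrib, ← mul_sum, sum_sub_distrib,
      sum_sub_distrib, ← hone, ← sum_filter, ← sum_filter, ← sum_filter, ← mul_sum]
    have h7 : (0 : ℝ) ≤ 1 - 1 / 2 ^ b := by
      have : (1 : ℝ) ≤ 2 ^ b := one_le_pow₀ (by norm_num)
      rw [sub_nonneg, div_le_one (by positivity)]
      exact this
    have h8 : (∑ j ∈ univ.filter (fun j => cls j ≠ c.castSucc ∧ cls j ≠ 3), (1 : ℝ)) =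
        ((univ.filter (fun j => cls j ≠ c.castSucc ∧ cls j ≠ 3)).card : ℝ) := by
      simp
    rw [h8]
    nlinarith [mul_nonneg h7 (sub_nonneg.2 h5)]

/-- **the combinatorial lemma for `LF`** -/
theorem s_CFD : S_CFD := by
  classical
  intro J _ _ cls c μ τ a b r hμ hab U S hUS hU hQ
  set W := UL (LF cls c r) U S with hW
  have hWm : ∀ e, e ∈ W ↔ e ∈ U ∧ ∀ k ∈ S, LF cls c r e k = LF cls c r k e := fun e => by
    rw [hW]
    unfold UL
    simp only [mem_filter]
  have hun : ∀ e ∈ W, ∀ s ∈ U ∪ S, LF cls c r e s = LF cls c r s e := by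
    intro e he s hs
    rcases mem_union.1 hs with h | h
    · exact hU e ((hWm e).1 he).1 s h
    · exact ((hWm e).1 he).2 s h
  have hinj : Set.InjOn (fi τ : LabF cls c r → _) (W : Set (LabF cls c r)) := by
    intro i hi l hl h
    exact inj_aux τ hQ i l h fun s hs => ⟨s, rfl, hun i hi s hs, hun l hl s hs⟩
  have h1 : ∑ i ∈ W, wv cls c a b r i (μ i.1.1) (1 - μ i.1.1) ≤
      ∑ x ∈ W.image (fi τ), be τ cls c μ a b x := by
    rw [sum_image hinj]
    exact sum_le_sum fun i _ => wv_le τ hμ a b i
  have hsub : W.image (fi τ) ⊆ TT τ cls c r := by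
    intro x hx
    obtain ⟨i, -, rfl⟩ := mem_image.1 hx
    exact fi_mem τ i
  have h2 : ∑ x ∈ TT τ cls c r, be τ cls c μ a b x ≤ Fintype.card J := by
    rw [sum_be]
    exact sum_tj cls c hμ hab
  refine ⟨h1.trans ((sum_le_sum_of_subset_of_nonneg hsub fun x _ _ =>
    (be_pos τ cls hμ a b x).le).trans h2), ?_⟩
  rintro ⟨s, hs⟩
  have hex : ∃ x ∈ TT τ cls c r, x ∉ W.image (fi τ) := by
    by_contra hcon
    push Not at hcon
    obtain ⟨i, hi, his⟩ := mem_image.1 (hcon _ (fi_mem τ s))
    have h3 : i = s := by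
      refine inj_aux τ hQ i s his fun l _ => ?_
      obtain ⟨t, ht, htl⟩ := mem_image.1 (hcon _ (fi_mem τ l))
      refine ⟨t, congrArg (fun x => x.2.1) htl, hun i hi t (mem_union_left _ ((hWm t).1 ht).1), ?_⟩
      exact (hun t ht s (mem_union_right _ hs)).symm
    rw [h3] at hi
    exact disjoint_left.1 hUS ((hWm s).1 hi).1 hs
  obtain ⟨x, hx, hxW⟩ := hex
  exact lt_of_le_of_lt h1 (lt_of_lt_of_le (sum_lt_sum_of_subset hsub hx hxW
    (be_pos τ cls hμ a b x) fun y _ _ => (be_pos τ cls hμ a b y).le) h2)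

end Pool.Agent.L7h89.FD
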