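import Mathlib
import Pool.Agent.L7h78.FT.Grr
import Pool.Agent.L7h65.FD.Lad0

/-!
# Project FD (helper19; MP_157626_nt): S_GFD, growth of the majorant
-/

set_option autoImplicit false
set_option linter.unusedSectionVars false

namespace Pool.Agent.L7h89.FD.Gf

open Finset Polynomial Pool.Agent.W262.RK Pool.Agent.L7h19.RP Pool.Agent.L7h19.FD
open Pool.Agent.L7h19.RH (Q0)
open Pool.Agent.L7h65.FD (VK eqv2 KN N0_eq sy_zero_left)
open Pool.Agent.L7h78.FT (TF tf)

/-! ## The kernels -/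

section grow

variable {m1 m2 : Fin 4 → ℕ} {E : Fin 3 → Finset ℕ}

lemma sy_congr {p : ℕ} (hcl : cl m1 p = cl m2 p) (q : ℕ) (v e : V2) :
    sy m1 E p q v e = sy m2 E p q v e := by
  unfold sy
  rw [hcl]

/-- the restriction -/
def rs (h12 : (Mt m1).primeFactors ⊆ (Mt m2).primeFactors) (w : ↥(Mt m2).primeFactors → V2) :
    ↥(Mt m1).primeFactors → V2 := fun p => w ⟨p, h12 p.2⟩

lemma rs_mem (h12 : (Mt m1).primeFactors ⊆ (Mt m2).primeFactors)
    (hcl : ∀ p ∈ (Mt m1).primeFactors, cl m1 p = cl m2 p) {w : ↥(Mt m2).primeFactors → V2}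
    (hw : w ∈ VK m2 E) (h0 : ∀ q : ↥(Mt m2).primeFactors, (q : ℕ) ∉ (Mt m1).primeFactors → w q = 0) :
    rs h12 w ∈ VK m1 E := by
  obtain ⟨hw1, hw2⟩ := hw
  refine ⟨fun p => ?_, fun p e he => ?_⟩
  · rw [hcl p p.2]
    exact hw1 ⟨p, h12 p.2⟩
  · have h1 := hw2 ⟨p, h12 p.2⟩ e (by rw [← hcl p p.2]; exact he)
    set W : ℕ → V2 := fun n => if h : n ∈ (Mt m2).primeFactors then w ⟨n, h⟩ else 0 with hW
    have h2 : (∏ q : ↥(Mt m2).primeFactors, sy m2 E p q (w q) e) =
        ∏ q ∈ (Mt m2).primeFactors, sy m2 E p q (W q) e := by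
      rw [← Finset.prod_coe_sort (Mt m2).primeFactors (fun q => sy m2 E p q (W q) e)]
      refine prod_congr rfl fun q _ => ?_
      rw [hW]
      dsimp only
      rw [dif_pos q.2]
    have h3 : (∏ q : ↥(Mt m1).primeFactors, sy m1 E p q (rs h12 w q) e) =
        ∏ q ∈ (Mt m1).primeFactors, sy m2 E p q (W q) e := by
      rw [← Finset.prod_coe_sort (Mt m1).primeFactors (fun q => sy m2 E p q (W q) e)]
      refine prod_congr rfl fun q _ => ?_
      rw [hW]
      dsimp only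
      rw [dif_pos (h12 q.2), sy_congr (hcl p p.2)]
      rfl
    rw [h3]
    refine Eq.trans (prod_subset h12 fun q hq hq' => ?_) (h2.symm.trans h1)
    rw [hW]
    dsimp only
    rw [dif_pos hq, h0 ⟨q, hq⟩ hq']
    exact sy_zero_left m2 E e

theorem VK_grow (h12 : (Mt m1).primeFactors ⊆ (Mt m2).primeFactors)
    (hcl : ∀ p ∈ (Mt m1).primeFactors, cl m1 p = cl m2 p) :
    Nat.card ↥(VK m2 E) ≤
      4 ^ ((Mt m2).primeFactors \ (Mt m1).primeFactors).card * Nat.card ↥(VK m1 E) := by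
  classical
  set Q := (Mt m2).primeFactors \ (Mt m1).primeFactors with hQ
  have hQ2 : ∀ q ∈ Q, q ∈ (Mt m2).primeFactors := fun q hq => (mem_sdiff.1 hq).1
  set f : ↥(VK m2 E) → (↥Q → V2) := fun w q => w.1 ⟨q, hQ2 q q.2⟩ with hf
  have hsec : ∀ w, f (Function.invFun f (f w)) = f w := fun w =>
    Function.invFun_eq ⟨w, rfl⟩
  have hker : ∀ w, ∀ q : ↥(Mt m2).primeFactors, (q : ℕ) ∉ (Mt m1).primeFactors →
      (w - Function.invFun f (f w)).1 q = 0 := by
    intro w q hq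
    have h1 := congrFun (hsec w) ⟨q, mem_sdiff.2 ⟨q.2, hq⟩⟩
    rw [hf] at h1
    dsimp only at h1
    have h2 : (w - Function.invFun f (f w)).1 q = w.1 q - (Function.invFun f (f w)).1 q := rfl
    rw [h2, sub_eq_zero]
    exact h1.symm
  have hcV : Nat.card (↥Q → V2) = 4 ^ Q.card := by
    rw [Nat.card_fun, Nat.card_eq_fintype_card, Nat.card_eq_fintype_card, Fintype.card_coe]
    congr 1
  rw [← hcV, ← Nat.card_prod]
  refine Nat.card_le_card_of_injective (fun w => (f w, (⟨rs h12 (w - Function.invFun f (f w)).1,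
    rs_mem h12 hcl (w - Function.invFun f (f w)).2 (hker w)⟩ : ↥(VK m1 E)))) ?_
  intro w w' hww
  have h1 : f w = f w' := congrArg Prod.fst hww
  have h2 : rs h12 (w - Function.invFun f (f w)).1 = rs h12 (w' - Function.invFun f (f w')).1 :=
    congrArg (fun x => x.2.1) hww
  rw [← h1] at h2
  apply Subtype.ext
  funext q
  by_cases hq : (q : ℕ) ∈ (Mt m1).primeFactors
  · have h3 := congrFun h2 ⟨q, hq⟩
    have h4 : w.1 q - (Function.invFun f (f w)).1 q = w'.1 q - (Function.invFun f (f w)).1 q := h3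
    exact sub_left_inj.1 h4
  · exact congrFun h1 ⟨q, mem_sdiff.2 ⟨q.2, hq⟩⟩

theorem N0_card (m : Fin 4 → ℕ) (E : Fin 3 → Finset ℕ) (h : Squarefree (Mt m)) :
    N0 m E = Nat.card ↥(VK m E) := by
  rw [N0_eq, ← Nat.card_congr (eqv2 E h), Nat.card_eq_fintype_card, Fintype.card_coe]

end grow

/-! ## The numbers `mc` -/

variable {J : Type} [Fintype J] [DecidableEq J]

lemma dvd_mc {cls : J → Fin 4} {s : J → ℕ} {c : Fin 4} {p : ℕ} (hp : p.Prime) :
    p ∣ mc cls s c ↔ ∃ j, cls j = c ∧ p ∣ s j := by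
  unfold mc
  rw [hp.prime.dvd_finsetProd_iff]
  constructor
  · rintro ⟨j, hj, h⟩
    exact ⟨j, (mem_filter.1 hj).2, h⟩
  · rintro ⟨j, hj, h⟩
    exact ⟨j, mem_filter.2 ⟨mem_univ _, hj⟩, h⟩

lemma Mt_mc (cls : J → Fin 4) (s : J → ℕ) : Mt (mc cls s) = ∏ j, s j := by
  unfold Mt mc
  exact Finset.prod_fiberwise univ cls s

lemma mc_ne (cls : J → Fin 4) {s : J → ℕ} (hs : ∀ j, s j ≠ 0) (c : Fin 4) : mc cls s c ≠ 0 :=
  prod_ne_zero_iff.2 fun j _ => hs j

lemma mc_dvd (cls : J → Fin 4) (s : J → ℕ) (c : Fin 4) : mc cls s c ∣ ∏ j, s j := by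
  unfold mc
  exact prod_dvd_prod_of_subset _ _ _ (filter_subset _ _)

lemma mc_mul (cls : J → Fin 4) (s e : J → ℕ) (c : Fin 4) :
    mc cls (fun j => s j * e j) c = mc cls s c * mc cls e c := by
  unfold mc
  rw [prod_mul_distrib]

lemma cl_congr {cls : J → Fin 4} {z y : ℕ} {s e : J → ℕ} (T : TF z y s e) {p : ℕ} (hp : p.Prime)
    (hd : p ∣ ∏ j, s j) : cl (mc cls s) p = cl (mc cls (fun j => s j * e j)) p := by
  have h : ∀ c, p ∣ mc cls s c ↔ p ∣ mc cls (fun j => s j * e j) c := by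
    intro c
    rw [dvd_mc hp, dvd_mc hp]
    exact exists_congr fun j => and_congr_right fun _ => (T.iff_s p hp hd j).symm
  unfold cl
  simp only [h]

/-- the growth of the kernel -/
theorem N0_grow (cls : J → Fin 4) {z y : ℕ} {s e : J → ℕ}
    (hT : (fun j => s j * e j) ∈ Tup J z y) (E : Fin 3 → Finset ℕ) :
    N0 (mc cls (fun j => s j * e j)) E ≤
      4 ^ (∑ j, (e j).primeFactors.card) * N0 (mc cls s) E := by
  have T := tf hT
  have hprod : ∏ j, (s j * e j) = (∏ j, s j) * ∏ j, e j := Finset.prod_mul_distrib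
  have hP0 : ∏ j, s j ≠ 0 := prod_ne_zero_iff.2 fun j _ => T.s0 j
  have hQ0 : ∏ j, e j ≠ 0 := prod_ne_zero_iff.2 fun j _ => T.e0 j
  rw [N0_card _ E (by rw [Mt_mc]; exact T.sqf),
    N0_card _ E (by rw [Mt_mc]; exact T.sqm.squarefree_of_dvd (dvd_mul_right _ _))]
  have h12 : (Mt (mc cls s)).primeFactors ⊆ (Mt (mc cls (fun j => s j * e j))).primeFactors := by
    rw [Mt_mc, Mt_mc, hprod, Nat.primeFactors_mul hP0 hQ0]
    exact subset_union_left
  have hcl : ∀ p ∈ (Mt (mc cls s)).primeFactors,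
      cl (mc cls s) p = cl (mc cls (fun j => s j * e j)) p := by
    intro p hp
    rw [Mt_mc] at hp
    exact cl_congr T (Nat.prime_of_mem_primeFactors hp) (Nat.dvd_of_mem_primeFactors hp)
  refine (VK_grow (E := E) h12 hcl).trans (Nat.mul_le_mul_right _ ?_)
  refine Nat.pow_le_pow_right (by norm_num) ?_
  rw [← T.card_e, Mt_mc, Mt_mc, hprod, Nat.primeFactors_mul hP0 hQ0]
  refine card_le_card fun p hp => ?_
  obtain ⟨h1, h2⟩ := mem_sdiff.1 hp
  exact (mem_union.1 h1).resolve_left h2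

lemma Ms_pf (m : Fin 4 → ℕ) (E : Fin 3 → Finset ℕ) (c : Fin 3) :
    (Ms m E c).primeFactors = (m c.castSucc * m 3).primeFactors.filter (fun p =>
      dg (cl m p) (nb E p) (m4 p) (dc c.castSucc) (dc c.castSucc) = 0) := by
  unfold Ms
  exact Nat.primeFactors_prod fun p hp => Nat.prime_of_mem_primeFactors (mem_filter.1 hp).1

lemma pf_sub (cls : J → Fin 4) {s : J → ℕ} (hs : ∀ j, s j ≠ 0) (c : Fin 4) :
    (mc cls s c).primeFactors ⊆ Q0 s :=
  Nat.primeFactors_mono (mc_dvd cls s c) (prod_ne_zero_iff.2 fun j _ => hs j)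

lemma pf2_sub (cls : J → Fin 4) {s : J → ℕ} (hs : ∀ j, s j ≠ 0) (c : Fin 4) :
    (mc cls s c * mc cls s 3).primeFactors ⊆ Q0 s := by
  rw [Nat.primeFactors_mul (mc_ne cls hs c) (mc_ne cls hs 3)]
  exact union_subset (pf_sub cls hs c) (pf_sub cls hs 3)

lemma nb_congr (E : Fin 3 → Finset ℕ) {s : J → ℕ} {p : ℕ} (hp : p ∈ Q0 s) :
    nb (fun i => E i ∩ Q0 s) p = nb E p := by
  funext i
  unfold nb
  by_cases h : p ∈ E i
  · rw [if_pos (mem_inter.2 ⟨h, hp⟩), if_pos h]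
  · rw [if_neg (fun h' => h (mem_inter.1 h').1), if_neg h]

/-- the part on the restriction of the sign patterns -/
theorem gF_inter (cls : J → Fin 4) (G : Finset (Fin 3)) {s : J → ℕ} (hs : ∀ j, s j ≠ 0)
    (E : Fin 3 → Finset ℕ) :
    gF G (mc cls s) E = gF G (mc cls s) (fun i => E i ∩ Q0 s) := by
  have hN : N0 (mc cls s) E = N0 (mc cls s) (fun i => E i ∩ Q0 s) := by
    unfold N0
    congr 1
    refine filter_congr fun d _ => ?_
    refine forall₂_congr fun p hp => ?_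
    have hpQ : p ∈ Q0 s := by
      rw [Mt_mc] at hp
      exact hp
    refine forall₂_congr fun e _ => ?_
    rw [prod_congr rfl fun q _ => ?_]
    unfold sy
    rw [nb_congr E hpQ]
  have hM : ∀ c, Ms (mc cls s) E c = Ms (mc cls s) (fun i => E i ∩ Q0 s) c := by
    intro c
    unfold Ms
    congr 1
    refine filter_congr fun p hp => ?_
    rw [nb_congr E (pf2_sub cls hs c.castSucc hp)]
  have hd : ∀ c, dl (mc cls s) E c = dl (mc cls s) (fun i => E i ∩ Q0 s) c := by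
    intro c
    unfold dl
    rw [hM c]
  have he : ex G (mc cls s) E = ex G (mc cls s) (fun i => E i ∩ Q0 s) := by
    unfold ex
    simp only [hd]
  unfold gF
  rw [hN, he]

theorem dl_grow (cls : J → Fin 4) {z y : ℕ} {s e : J → ℕ}
    (hT : (fun j => s j * e j) ∈ Tup J z y) (E : Fin 3 → Finset ℕ) (c : Fin 3) :
    dl (mc cls s) E c ≤
      dl (mc cls (fun j => s j * e j)) E c + (∑ j, (e j).primeFactors.card : ℕ) := by
  have T := tf hT
  have h0 : ∀ j, s j * e j ≠ 0 := fun j => mul_ne_zero (T.s0 j) (T.e0 j)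
  have h1 : (Ms (mc cls s) E c).primeFactors.card ≤
      (Ms (mc cls (fun j => s j * e j)) E c).primeFactors.card := by
    refine card_le_card fun p hp => ?_
    rw [Ms_pf, mem_filter] at hp ⊢
    obtain ⟨hp1, hp2⟩ := hp
    have hpQ := pf2_sub cls T.s0 c.castSucc hp1
    unfold Q0 at hpQ
    refine ⟨?_, ?_⟩
    · refine Nat.primeFactors_mono ?_ (mul_ne_zero (mc_ne cls h0 _) (mc_ne cls h0 _)) hp1
      rw [mc_mul, mc_mul]
      exact mul_dvd_mul (dvd_mul_right _ _) (dvd_mul_right _ _)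
    · rw [← cl_congr T (Nat.prime_of_mem_primeFactors hpQ) (Nat.dvd_of_mem_primeFactors hpQ)]
      exact hp2
  have h2 : (Mo (mc cls (fun j => s j * e j)) c).primeFactors.card ≤
      (Mo (mc cls s) c).primeFactors.card + ∑ j, (e j).primeFactors.card := by
    have h3 : Mo (mc cls (fun j => s j * e j)) c = Mo (mc cls s) c * Mo (mc cls e) c := by
      unfold Mo
      rw [← prod_mul_distrib]
      exact prod_congr rfl fun a _ => mc_mul cls s e a
    have h4 : Mo (mc cls s) c ≠ 0 := prod_ne_zero_iff.2 fun a _ => mc_ne cls T.s0 a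
    have h5 : Mo (mc cls e) c ≠ 0 := prod_ne_zero_iff.2 fun a _ => mc_ne cls T.e0 a
    have h6 : Mo (mc cls e) c ∣ ∏ j, e j := by
      rw [← Mt_mc cls e]
      unfold Mo Mt
      exact prod_dvd_prod_of_subset _ _ _ (filter_subset _ _)
    rw [h3, Nat.primeFactors_mul h4 h5]
    refine (card_union_le _ _).trans ?_
    refine Nat.add_le_add_left ?_ _
    rw [← T.card_e]
    exact card_le_card (Nat.primeFactors_mono h6 (prod_ne_zero_iff.2 fun j _ => T.e0 j))
  unfold dl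
  omega

theorem ex_grow (cls : J → Fin 4) (G : Finset (Fin 3)) {z y : ℕ} {s e : J → ℕ}
    (hT : (fun j => s j * e j) ∈ Tup J z y) (E : Fin 3 → Finset ℕ) :
    ex G (mc cls s) E ≤
      ex G (mc cls (fun j => s j * e j)) E + ∑ j, (e j).primeFactors.card := by
  unfold ex
  refine Finset.sup_le fun c hc => ?_
  have h1 := dl_grow cls hT E c
  have h2 : (dl (mc cls (fun j => s j * e j)) E c).toNat ≤
      (univ.filter (fun c => c ∉ G)).sup
        (fun c => (dl (mc cls (fun j => s j * e j)) E c).toNat) :=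
    Finset.le_sup (f := fun c => (dl (mc cls (fun j => s j * e j)) E c).toNat) hc
  omega

end Pool.Agent.L7h89.FD.Gf

namespace Pool.Agent.L7h89.FD

open Finset Pool.Agent.L7h19.RP Pool.Agent.L7h19.FD
open Pool.Agent.L7h78.FT (TF tf)

/-- **S_GFD** -/
theorem s_GFD : S_GFD := by
  intro J _ _ cls G z y s e E hz hT
  have T := tf hT
  refine ⟨Gf.gF_inter cls G T.s0 E, ?_⟩
  have h1 := Gf.N0_grow cls hT E
  have h2 := Gf.ex_grow cls G hT E
  set N := ∑ j, (e j).primeFactors.card with hN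
  unfold gF
  set a := ex G (mc cls s) E
  set b := ex G (mc cls (fun j => s j * e j)) E
  have h3 : (N0 (mc cls (fun j => s j * e j)) E : ℝ) ≤ 4 ^ N * (N0 (mc cls s) E : ℝ) := by
    exact_mod_cast h1
  have h4 : (2 : ℝ) ^ a ≤ 2 ^ b * 4 ^ N := by
    refine (pow_le_pow_right₀ (by norm_num) h2).trans ?_
    rw [pow_add]
    refine mul_le_mul_of_nonneg_left ?_ (by positivity)
    exact pow_le_pow_left₀ (by norm_num) (by norm_num) N
  rw [div_le_iff₀ (by positivity)]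
  have h5 : (16 : ℝ) ^ N = 4 ^ N * 4 ^ N := by
    rw [← mul_pow]; norm_num
  have h6 : 0 ≤ (N0 (mc cls s) E : ℝ) := Nat.cast_nonneg _
  calc (N0 (mc cls (fun j => s j * e j)) E : ℝ) ≤ 4 ^ N * (N0 (mc cls s) E : ℝ) := h3
    _ = 4 ^ N * ((N0 (mc cls s) E : ℝ) / 2 ^ a) * 2 ^ a := by field_simp
    _ ≤ 4 ^ N * ((N0 (mc cls s) E : ℝ) / 2 ^ a) * (2 ^ b * 4 ^ N) :=
        mul_le_mul_of_nonneg_left h4 (by positivity)
    _ = 16 ^ N * ((N0 (mc cls s) E : ℝ) / 2 ^ a) * 2 ^ b := by rw [h5]; ring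

end Pool.Agent.L7h89.FD
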