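import Mathlib
import Pool.Agent.L7h19.FD.Stm
import Pool.Agent.L7h89.FT.Rkf

/-!
# Project FD (owner helper19, problem MP_157626_nt): the bound for values (`S_RKD`)
-/

set_option autoImplicit false
set_option linter.unusedSectionVars false

namespace Pool.Agent.L7h89.FD

open Finset Polynomial Pool.Agent.W262.RK Pool.Agent.W307.RT Pool.Agent.L7h19.RP
open Pool.Agent.L7h19.FD Pool.Agent.L7h89.RP Pool.Agent.L7h19.RJ
open Pool.Agent.L7h19.FT (sp)

/-! ## Signs -/

/-- a Boolean as an element of `F_2` -/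
def bz (b : Bool) : ZMod 2 := if b = true then 1 else 0

/-- the sign of a Boolean -/
def sb (b : Bool) : ℤ := if b = true then -1 else 1

/-- the local condition of the classes `0, 1, 2` -/
theorem fin12 : ∀ c : Fin 4, c ≠ 3 → ∀ v w h g k : Bool,
    (if c = 0 then v = w ∧ xor h g = (v && k)
      else if c = 1 then w = false ∧ g = (v && k)
      else v = false ∧ h = (w && k)) →
    Ln c (bz v, bz w) ∧ ∀ e : V2, Ln c e →
      sn (if ((bz v, bz w) : V2) ≠ 0 ∧ e ≠ 0 then bz k else 0) *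
        ((if e.2 = 0 then 1 else sb h) * (if e.1 = 0 then 1 else sb g)) = 1 := by
  decide

/-- the local condition of the class `3` -/
theorem fin3 : ∀ v w h g neg k0 k1 k2 m : Bool,
    (h = xor (v && neg) (xor (v && !w && k0) (xor (!v && w && xor k0 k1) (v && w && k1))) ∧
      g = xor (w && neg) (xor (v && !w && xor k0 k2) (xor (!v && w && xor m k0)
        (v && w && xor m k2)))) →
    ∀ e1 e2 : Bool,
      sn (bz e2 * (bz v * bz (xor neg k0) + bz w * (bz (xor neg k0) + bz (xor neg k1))) +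
          bz e1 * (bz v * (bz (xor neg k0) + bz (xor neg k2)) + bz w * (bz (xor neg k0) + bz m))) *
        ((if bz e2 = 0 then 1 else sb h) * (if bz e1 = 0 then 1 else sb g)) = 1 := by
  decide

theorem bz_zero (b : Bool) : bz b = 0 ↔ b = false := by cases b <;> decide

theorem bool_of (e : ZMod 2) : ∃ b : Bool, e = bz b := by
  fin_cases e
  · exact ⟨false, rfl⟩
  · exact ⟨true, rfl⟩

/-- the product of the symbols of the primes `q ≠ p` which divide `d` -/
def Hp (p d : ℕ) : ℤ := ∏ q ∈ d.primeFactors.erase p, jacobiSym (q : ℤ) p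

theorem jac_pf {S : Finset ℕ} {p : ℕ} :
    jacobiSym ((∏ q ∈ S, q : ℕ) : ℤ) p = ∏ q ∈ S, jacobiSym (q : ℤ) p := by
  induction S using Finset.induction_on with
  | empty => simp [jacobiSym.one_left]
  | insert a S ha ih => rw [prod_insert ha, prod_insert ha, Nat.cast_mul, jacobiSym.mul_left, ih]

theorem jac_pm {p q : ℕ} (hp : p.Prime) (hq : q.Prime) (h : q ≠ p) :
    jacobiSym (q : ℤ) p = 1 ∨ jacobiSym (q : ℤ) p = -1 := by
  apply jacobiSym.eq_one_or_neg_one
  rw [Int.gcd_natCast_natCast]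
  exact (Nat.coprime_primes hq hp).2 h

theorem Hp_pm {p d : ℕ} (hp : p.Prime) : Hp p d = 1 ∨ Hp p d = -1 := by
  unfold Hp
  have h : ∀ S : Finset ℕ, (∀ q ∈ S, q.Prime ∧ q ≠ p) →
      ∏ q ∈ S, jacobiSym (q : ℤ) p = 1 ∨ ∏ q ∈ S, jacobiSym (q : ℤ) p = -1 := by
    intro S
    induction S using Finset.induction_on with
    | empty => intro _; left; rfl
    | insert a S ha ih =>
      intro hS
      rw [prod_insert ha]
      have h1 := hS a (mem_insert_self _ _)
      rcases jac_pm hp h1.1 h1.2 with h2 | h2 <;>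
        rcases ih (fun q hq => hS q (mem_insert_of_mem hq)) with h3 | h3 <;> rw [h2, h3] <;> simp
  exact h _ fun q hq => ⟨Nat.prime_of_mem_primeFactors (mem_of_mem_erase hq), ne_of_mem_erase hq⟩

theorem sgn_eq {d p : ℕ} (hd : Squarefree d) (hp : p.Prime) :
    sgn p (d : ℤ) = decide (Hp p d = -1) := by
  have key : (d : ℤ) / (Int.gcd (d : ℤ) (p : ℤ) : ℤ) = ((∏ q ∈ d.primeFactors.erase p, q : ℕ) : ℤ) := by
    rw [Int.gcd_natCast_natCast]
    by_cases h : p ∣ d
    · have h1 : Nat.gcd d p = p := Nat.gcd_eq_right h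
      rw [h1]
      have h2 : d = p * ∏ q ∈ d.primeFactors.erase p, q := by
        conv_lhs => rw [← Nat.prod_primeFactors_of_squarefree hd]
        exact (mul_prod_erase _ _ (Nat.mem_primeFactors.2 ⟨hp, h, hd.ne_zero⟩)).symm
      conv_lhs => rw [h2]
      rw [Nat.cast_mul, Int.mul_ediv_cancel_left _ (by exact_mod_cast hp.ne_zero)]
    · have h1 : Nat.gcd d p = 1 := ((Nat.Prime.coprime_iff_not_dvd hp).2 h).symm
      rw [h1, Nat.cast_one, Int.ediv_one, erase_eq_of_notMem (fun h3 =>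
        h (Nat.dvd_of_mem_primeFactors h3)), Nat.prod_primeFactors_of_squarefree hd]
  unfold sgn sg0
  rw [key, jac_pf]
  rfl

theorem Hp_sb {d p : ℕ} (hd : Squarefree d) (hp : p.Prime) : Hp p d = sb (sgn p (d : ℤ)) := by
  rw [sgn_eq hd hp]
  rcases Hp_pm (d := d) hp with h | h <;> rw [h] <;> decide

/-! ## The product of the symbols -/

theorem prod_part {M d p : ℕ} (hM : M ≠ 0) (hd : d ∣ M) (e : ZMod 2) :
    (if e = 0 then 1 else Hp p d) =
      ∏ q ∈ M.primeFactors.erase p, (if q ∣ d ∧ e ≠ 0 then jacobiSym (q : ℤ) p else 1) := by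
  by_cases he : e = 0
  · rw [if_pos he]
    exact (prod_eq_one fun q _ => if_neg (fun h => h.2 he)).symm
  · rw [if_neg he, ← prod_filter]
    unfold Hp
    refine prod_congr ?_ fun _ _ => rfl
    ext q
    rw [mem_filter, mem_erase, mem_erase, Nat.mem_primeFactors, Nat.mem_primeFactors]
    constructor
    · rintro ⟨h1, h2, h3, h4⟩
      exact ⟨⟨h1, h2, h3.trans hd, hM⟩, h3, he⟩
    · rintro ⟨⟨h1, h2, h3, h4⟩, h5, -⟩
      exact ⟨h1, h2, h5, fun h => hM (by rw [h] at hd; exact Nat.eq_zero_of_zero_dvd hd)⟩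

theorem om2_ite (a b : Prop) [Decidable a] [Decidable b] (e : V2) (J : ℤ) (hJ : J = 1 ∨ J = -1) :
    (if om2 ((if a then 1 else 0, if b then 1 else 0) : V2) e = 0 then 1 else J) =
      (if a ∧ e.2 ≠ 0 then J else 1) * (if b ∧ e.1 ≠ 0 then J else 1) := by
  obtain ⟨e1, e2⟩ := e
  obtain ⟨b1, rfl⟩ := bool_of e1
  obtain ⟨b2, rfl⟩ := bool_of e2
  have hJJ : J * J = 1 := by rcases hJ with h | h <;> rw [h] <;> norm_num
  have h11 : (1 : ZMod 2) + 1 = 0 := by decide
  by_cases ha : a <;> by_cases hb : b <;> cases b1 <;> cases b2 <;>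
    simp [ha, hb, om2, bz, hJJ, h11]

theorem prod_sy {m : Fin 4 → ℕ} {E : Fin 3 → Finset ℕ} {d1 d2 p : ℕ}
    (hM : Squarefree (Mt m)) (h1 : d1 ∣ Mt m) (h2 : d2 ∣ Mt m) (hp : p ∈ (Mt m).primeFactors)
    (e : V2) : ∏ q ∈ (Mt m).primeFactors, sy m E p q (dV (d1, d2) q) e =
      sn (dg (cl m p) (nb E p) (m4 p) (dV (d1, d2) p) e) *
        ((if e.2 = 0 then 1 else sb (sgn p (d1 : ℤ))) *
          (if e.1 = 0 then 1 else sb (sgn p (d2 : ℤ)))) := by
  have hpp := Nat.prime_of_mem_primeFactors hp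
  rw [← Hp_sb (hM.squarefree_of_dvd h1) hpp, ← Hp_sb (hM.squarefree_of_dvd h2) hpp,
    prod_part hM.ne_zero h1, prod_part hM.ne_zero h2, ← prod_mul_distrib, ← mul_prod_erase _ _ hp]
  congr 1
  · unfold sy
    rw [if_pos rfl]
  · refine prod_congr rfl fun q hq => ?_
    have hqp := ne_of_mem_erase hq
    have hqq := Nat.prime_of_mem_primeFactors (mem_of_mem_erase hq)
    unfold sy
    rw [if_neg hqp]
    exact om2_ite _ _ e _ (jac_pm hpp hqq hqp)

/-! ## The classes -/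

variable {J : Type} [Fintype J] [DecidableEq J]

lemma dvd_mc {cls : J → Fin 4} {s : J → ℕ} {c : Fin 4} {p : ℕ} (hp : p.Prime) :
    p ∣ mc cls s c ↔ ∃ j, cls j = c ∧ p ∣ s j := by
  unfold mc
  rw [hp.prime.dvd_finsetProd_iff]
  constructor
  · rintro ⟨j, hj, h⟩
    exact ⟨j, (mem_filter.1 hj).2, h⟩
  · rintro ⟨j, hj, h⟩
    exact ⟨j, mem_filter.2 ⟨mem_univ _, hj⟩, h⟩

lemma Mt_eq (cls : J → Fin 4) (s : J → ℕ) : Mt (mc cls s) = ∏ j, s j := by
  unfold Mt mc
  exact prod_fiberwise univ cls s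

lemma dvd_mc' {cls : J → Fin 4} {s : J → ℕ} (hcop : ∀ i j, i ≠ j → (s i).Coprime (s j)) {p : ℕ}
    (hp : p.Prime) {j : J} (hj : p ∣ s j) (c : Fin 4) : p ∣ mc cls s c ↔ cls j = c := by
  rw [dvd_mc hp]
  constructor
  · rintro ⟨l, hl, h⟩
    rw [← hl, Pool.Agent.L7h89.FT.uniq_of hcop hp hj h]
  · intro h
    exact ⟨j, h, hj⟩

lemma cl_eq {cls : J → Fin 4} {s : J → ℕ} (hcop : ∀ i j, i ≠ j → (s i).Coprime (s j)) {p : ℕ}
    (hp : p.Prime) {j : J} (hj : p ∣ s j) : cl (mc cls s) p = cls j := by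
  unfold cl
  simp only [dvd_mc' hcop hp hj]
  generalize cls j = c
  revert c
  decide

theorem m4_eq {p : ℕ} (hp : Odd p) : m4 p = bz (sg0 p (-1)) := by
  unfold m4 sg0 bz
  rw [jacobiSym.at_neg_one hp]
  have h2 : p % 4 = 1 ∨ p % 4 = 3 := by
    rcases hp with ⟨k, hk⟩
    omega
  rcases h2 with h | h
  · rw [ZMod.χ₄_nat_one_mod_four h, if_neg (by omega), if_neg (by decide)]
  · rw [ZMod.χ₄_nat_three_mod_four h, if_pos h, if_pos (by decide)]

theorem sg0_mul {p : ℕ} (a b : ℤ) (ha : jacobiSym a p = 1 ∨ jacobiSym a p = -1)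
    (hb : jacobiSym b p = 1 ∨ jacobiSym b p = -1) : sg0 p (a * b) = xor (sg0 p a) (sg0 p b) := by
  unfold sg0
  rw [jacobiSym.mul_left]
  rcases ha with h | h <;> rcases hb with h' | h' <;> rw [h, h'] <;> decide

theorem dV_bz (d1 d2 p : ℕ) : dV (d1, d2) p = (bz (dv p (d1 : ℤ)), bz (dv p (d2 : ℤ))) := by
  unfold Pool.Agent.L7h19.FD.dV bz dv
  simp only [decide_eq_true_eq, Int.natCast_dvd_natCast]

/-- the data at a prime -/
structure Dat (m : Fin 4 → ℕ) (E : Fin 3 → Finset ℕ) (c : Fin 4) (κ : Fin 3 → ℤ) (neg : Bool)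
    (p : ℕ) : Prop where
  cls : cl m p = c
  n0 : c ≠ 3 → nb E p 0 = bz (sg0 p (κ 0))
  n3 : c = 3 → ∀ i, nb E p i = bz (xor neg (sg0 p (κ i)))
  nd : ∀ i, jacobiSym (κ i) p = 1 ∨ jacobiSym (κ i) p = -1

theorem good_one {m : Fin 4 → ℕ} {E : Fin 3 → Finset ℕ} {c : Fin 4} {κ : Fin 3 → ℤ} {neg : Bool}
    {d1 d2 p : ℕ} (hM : Squarefree (Mt m)) (hodd : Odd p) (h1 : d1 ∣ Mt m) (h2 : d2 ∣ Mt m)
    (hp : p ∈ (Mt m).primeFactors) (hD : Dat m E c κ neg p)
    (hL : LL c κ neg p (dv p d1) (dv p d2) (sgn p d1) (sgn p d2)) :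
    Ln (cl m p) (dV (d1, d2) p) ∧ ∀ e, Ln (cl m p) e →
      ∏ q ∈ (Mt m).primeFactors, sy m E p q (dV (d1, d2) q) e = 1 := by
  have hpp := Nat.prime_of_mem_primeFactors hp
  rw [hD.cls]
  by_cases hc : c = 3
  · refine ⟨Or.inl hc, fun e _ => ?_⟩
    rw [prod_sy hM h1 h2 hp, hD.cls, dV_bz]
    unfold dg
    rw [if_pos hc]
    unfold ph
    obtain ⟨e1, e2⟩ := e
    obtain ⟨b1, rfl⟩ := bool_of e1
    obtain ⟨b2, rfl⟩ := bool_of e2
    rw [m4_eq hodd, hD.n3 hc 0, hD.n3 hc 1, hD.n3 hc 2]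
    unfold LL at hL
    rw [hc, if_neg (by decide), if_neg (by decide), if_neg (by decide),
      sg0_mul _ _ (hD.nd 0) (hD.nd 1), sg0_mul _ _ (hD.nd 0) (hD.nd 2)] at hL
    have hm1 : jacobiSym (-1) p = 1 ∨ jacobiSym (-1) p = -1 := by
      apply jacobiSym.eq_one_or_neg_one
      simp
    have e0 : sg0 p (-κ 0) = xor (sg0 p (-1)) (sg0 p (κ 0)) := by
      rw [← neg_one_mul, sg0_mul _ _ hm1 (hD.nd 0)]
    have e2 : sg0 p (-κ 2) = xor (sg0 p (-1)) (sg0 p (κ 2)) := by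
      rw [← neg_one_mul, sg0_mul _ _ hm1 (hD.nd 2)]
    rw [e0, e2] at hL
    exact fin3 _ _ _ _ _ _ _ _ _ hL b1 b2
  · have hL' : (if c = 0 then dv p d1 = dv p d2 ∧ xor (sgn p d1) (sgn p d2) =
          (dv p d1 && sg0 p (κ 0))
        else if c = 1 then dv p d2 = false ∧ sgn p d2 = (dv p d1 && sg0 p (κ 0))
        else dv p d1 = false ∧ sgn p d1 = (dv p d2 && sg0 p (κ 0))) := by
      have hcase : c = 0 ∨ c = 1 ∨ c = 2 :=
        (by decide : ∀ c : Fin 4, c ≠ 3 → c = 0 ∨ c = 1 ∨ c = 2) c hc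
      unfold LL at hL
      rcases hcase with h | h | h
      · rw [if_pos h] at hL ⊢
        exact hL
      · rw [if_neg (by rw [h]; decide), if_pos h] at hL ⊢
        exact hL
      · rw [if_neg (by rw [h]; decide), if_neg (by rw [h]; decide)] at hL ⊢
        rw [if_pos h] at hL
        exact hL
    have hf := fin12 c hc _ _ _ _ _ hL'
    rw [dV_bz]
    refine ⟨hf.1, fun e he => ?_⟩
    rw [prod_sy hM h1 h2 hp, hD.cls, dV_bz]
    unfold dg
    rw [if_neg hc, hD.n0 hc]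
    exact hf.2 e he

theorem NL_N0 {cls : J → Fin 4} {κ : J → Fin 3 → ℤ} {s : J → ℕ} {E : Fin 3 → Finset ℕ}
    {E' : Finset ℕ} (hcop : ∀ i j, i ≠ j → (s i).Coprime (s j)) (hsq : ∀ j, Squarefree (s j))
    (hodd : ∀ j (p : ℕ), p.Prime → p ∣ s j → Odd p)
    (hD : ∀ j (p : ℕ), p.Prime → p ∣ s j → Dat (mc cls s) E (cls j) (κ j) (decide (p ∈ E')) p) :
    NL (∏ j, s j) (LLso (fun j => some (cls j)) κ s E') ≤ N0 (mc cls s) E := by
  classical
  have hM : Squarefree (Mt (mc cls s)) := by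
    rw [Mt_eq]
    exact Finset.squarefree_prod_of_pairwise_isCoprime
      (fun i _ j _ hij => Nat.coprime_iff_isRelPrime.1 (hcop i j hij)) fun i _ => hsq i
  unfold NL N0
  apply card_le_card
  rintro ⟨d1, d2⟩ hd
  rw [mem_filter, mem_product, Nat.mem_divisors, Nat.mem_divisors] at hd
  obtain ⟨⟨⟨h1, h0⟩, ⟨h2, -⟩⟩, hL⟩ := hd
  rw [← Mt_eq cls] at h1 h2 hL h0
  have key : ∀ p ∈ (Mt (mc cls s)).primeFactors, Ln (cl (mc cls s) p) (dV (d1, d2) p) ∧
      ∀ e, Ln (cl (mc cls s) p) e →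
        ∏ q ∈ (Mt (mc cls s)).primeFactors, sy (mc cls s) E p q (dV (d1, d2) q) e = 1 := by
    intro p hp
    have hpp := Nat.prime_of_mem_primeFactors hp
    have hpd := Nat.dvd_of_mem_primeFactors hp
    rw [Mt_eq] at hpd
    obtain ⟨j, -, hj⟩ := (hpp.prime.dvd_finsetProd_iff _).1 hpd
    exact good_one hM (hodd j p hpp hj) h1 h2 hp (hD j p hpp hj) (hL p hp j hj)
  rw [mem_filter]
  unfold Kd
  rw [mem_filter, mem_product, Nat.mem_divisors, Nat.mem_divisors]
  exact ⟨⟨⟨⟨h1, h0⟩, ⟨h2, h0⟩⟩, fun p hp => (key p hp).1⟩, fun p hp => (key p hp).2⟩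

/-! ## The values -/

theorem FV_eq (cls : J → Fin 4) (a : Fin 4 → ℤ) (x : J → ℤ) (k : Fin 3) :
    FV (fun j => some (cls j)) (fun k => a 3 * a k.castSucc) x k =
      Fv cls a x 3 * Fv cls a x k.castSucc := by
  have h3 : k.castSucc ≠ 3 := by
    revert k
    decide
  have hS : fsJ (fun j => some (cls j)) k =
      univ.filter (fun j => cls j = 3) ∪ univ.filter (fun j => cls j = k.castSucc) := by
    ext j
    rw [mem_fsJ, mem_union, mem_filter, mem_filter, Option.some_inj, Option.some_inj]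
    constructor
    · rintro (h | h)
      · exact Or.inr ⟨mem_univ _, h⟩
      · exact Or.inl ⟨mem_univ _, h⟩
    · rintro (h | h)
      · exact Or.inr h.2
      · exact Or.inl h.2
  have hdis : Disjoint (univ.filter (fun j => cls j = 3))
      (univ.filter (fun j => cls j = k.castSucc)) := by
    rw [Finset.disjoint_left]
    intro j h1 h2
    exact h3 ((mem_filter.1 h2).2.symm.trans (mem_filter.1 h1).2)
  unfold FV Fv
  rw [hS, prod_union hdis]
  ring

theorem F3_eq {cls : J → Fin 4} {a : Fin 4 → ℤ} {x : J → ℤ} {D A B : ℤ}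
    (hA : A = Fv cls a x 0) (hB : B = Fv cls a x 1) (hC : A - B = Fv cls a x 2)
    (hD : D = Fv cls a x 3) (i : Fin 3) :
    FV (fun j => some (cls j)) (fun k => a 3 * a k.castSucc) x i = F3 D A B i := by
  rw [FV_eq]
  have hi : i = 0 ∨ i = 1 ∨ i = 2 := by
    revert i
    decide
  rcases hi with h | h | h
  · rw [h, ← hD]
    change D * Fv cls a x 0 = D * A
    rw [← hA]
  · rw [h, ← hD]
    change D * Fv cls a x 1 = D * B
    rw [← hB]
  · rw [h, ← hD]
    change D * Fv cls a x 2 = D * (A - B)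
    rw [← hC]

theorem kapV_ne3 {cls : J → Fin 4} {a : Fin 4 → ℤ} {x : J → ℤ} {D A B : ℤ}
    (hA : A = Fv cls a x 0) (hB : B = Fv cls a x 1) (hC : A - B = Fv cls a x 2)
    (hD : D = Fv cls a x 3) {j : J} (hj : cls j ≠ 3) (i : Fin 3) :
    kapV (fun j => some (cls j)) (fun k => a 3 * a k.castSucc) x j i = kz D A B (cls j) := by
  have h1 : kapV (fun j => some (cls j)) (fun k => a 3 * a k.castSucc) x j i =
      sg4 (cls j) * FV (fun j => some (cls j)) (fun k => a 3 * a k.castSucc) x (cp4 (cls j)) := by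
    unfold kapV FV
    exact if_neg hj
  rw [h1, F3_eq hA hB hC hD]
  have hcase : cls j = 0 ∨ cls j = 1 ∨ cls j = 2 :=
    (by decide : ∀ c : Fin 4, c ≠ 3 → c = 0 ∨ c = 1 ∨ c = 2) _ hj
  rcases hcase with h | h | h
  · rw [h]
    change -1 * (D * B) = -(D * B)
    ring
  · rw [h]
    change -1 * (D * A) = -(D * A)
    ring
  · rw [h]
    change 1 * (D * A) = D * A
    ring

theorem jac_pm' {p : ℕ} (hp : p.Prime) {n : ℤ} (h : ¬ (p : ℤ) ∣ n) :
    jacobiSym n p = 1 ∨ jacobiSym n p = -1 := by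
  apply jacobiSym.eq_one_or_neg_one
  rw [Int.gcd_comm]
  exact Int.isCoprime_iff_gcd_eq_one.1
    ((Prime.coprime_iff_not_dvd (Nat.prime_iff_prime_int.1 hp)).2 h)

theorem nb_bz (E : Fin 3 → Finset ℕ) (p : ℕ) (i : Fin 3) : nb E p i = bz (decide (p ∈ E i)) := by
  unfold nb bz
  simp only [decide_eq_true_eq]

theorem x_div {x : J → ℤ} {z y p : ℕ} (hp : p.Prime) {j : J} (hj : p ∣ S1 z y x j) :
    jacobiSym (x j / p) p = 1 ∨ jacobiSym (x j / p) p = -1 := by
  have h1 := (S1_dvd_iff hp).1 hj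
  have hpi : Prime (p : ℤ) := Nat.prime_iff_prime_int.1 hp
  apply jac_pm' hp
  intro h8
  apply h1.2.2
  obtain ⟨q, hq⟩ := h1.2.1
  rw [hq, Int.mul_ediv_cancel_left _ hpi.ne_zero] at h8
  rw [hq, pow_two]
  exact mul_dvd_mul_left _ h8

/-- the number of the primes of a product of the `mc` -/
theorem Mo_card {cls : J → Fin 4} {s : J → ℕ} (hcop : ∀ i j, i ≠ j → (s i).Coprime (s j))
    (h0 : ∀ j, s j ≠ 0) (c : Fin 3) :
    (Mo (mc cls s) c).primeFactors.card =
      ∑ e ∈ univ.filter (fun e : Fin 4 => e ≠ c.castSucc), (mc cls s e).primeFactors.card := by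
  have hne : ∀ e, mc cls s e ≠ 0 := fun e => prod_ne_zero_iff.2 fun j _ => h0 j
  have hpf : (Mo (mc cls s) c).primeFactors =
      (univ.filter (fun e : Fin 4 => e ≠ c.castSucc)).biUnion (fun e => (mc cls s e).primeFactors) := by
    ext q
    unfold Mo
    rw [Nat.mem_primeFactors, mem_biUnion]
    constructor
    · rintro ⟨hq, hd, -⟩
      obtain ⟨e, he, hed⟩ := (hq.prime.dvd_finsetProd_iff _).1 hd
      exact ⟨e, he, Nat.mem_primeFactors.2 ⟨hq, hed, hne e⟩⟩
    · rintro ⟨e, he, hq⟩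
      rw [Nat.mem_primeFactors] at hq
      exact ⟨hq.1, hq.2.1.trans (dvd_prod_of_mem _ he), prod_ne_zero_iff.2 fun e _ => hne e⟩
  rw [hpf, card_biUnion]
  intro e _ e' _ hne
  apply Nat.Coprime.disjoint_primeFactors
  unfold mc
  refine Nat.Coprime.prod_left fun i hi => Nat.Coprime.prod_right fun j hj => ?_
  apply hcop
  rintro rfl
  exact hne ((mem_filter.1 hi).2.symm.trans (mem_filter.1 hj).2)

lemma Fv_prime {cls : J → Fin 4} {a : Fin 4 → ℤ} {x : J → ℤ} {z : ℕ}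
    (hB : ∀ p : ℕ, p.Prime → z < p → ∀ k, ¬ (p : ℤ) ∣ a k) (c : Fin 4) (q : ℕ) (hq : q.Prime)
    (hz : z < q) (h : (q : ℤ) ∣ Fv cls a x c) :
    ∃ l ∈ univ.filter (fun l => cls l = c), (q : ℤ) ∣ x l := by
  have hqi : Prime (q : ℤ) := Nat.prime_iff_prime_int.1 hq
  unfold Fv at h
  rcases hqi.dvd_or_dvd h with h1 | h1
  · exact absurd h1 (hB q hq hz c)
  · exact (hqi.dvd_finsetProd_iff _).1 h1

/-- `ω (F c) ≤ ω (m c) + T` -/
lemma om_le {cls : J → Fin 4} {a : Fin 4 → ℤ} {x : J → ℤ} {z y X K d : ℕ} (hG : Gd z x)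
    (hB : ∀ p : ℕ, p.Prime → z < p → ∀ k, ¬ (p : ℤ) ∣ a k)
    (hy : 1 ≤ y) (hb : ∀ j, (x j).natAbs ≤ X ^ d) (hK : X < (y + 1) ^ K) (c : Fin 4) :
    Pool.Agent.L7h19.IS.om (Fv cls a x c) ≤ (mc cls (S1 z y x) c).primeFactors.card +
      (z + Fintype.card J * (d * K) + ∑ j, (S2 z y x j).primeFactors.card) := by
  have h1 := Pool.Agent.L7h89.FT.badF (n := Fv cls a x c) (T := univ.filter (fun l => cls l = c)) hG
    (Fv_prime hB c) hy hb hK
  refine le_trans ?_ (Nat.add_le_add_left h1 _)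
  unfold Pool.Agent.L7h19.IS.om
  refine (card_le_card ?_).trans (card_union_le _ _)
  intro q hq
  rw [mem_union, mem_filter]
  by_cases h : ∃ j ∈ univ.filter (fun l => cls l = c), q ∣ S1 z y x j
  · left
    obtain ⟨j, hj, hjd⟩ := h
    have hp := Nat.prime_of_mem_primeFactors hq
    rw [Nat.mem_primeFactors]
    refine ⟨hp, (dvd_mc hp).2 ⟨j, (mem_filter.1 hj).2, hjd⟩, ?_⟩
    exact prod_ne_zero_iff.2 fun j _ => S1_ne j
  · right
    exact ⟨hq, fun j hj hd => h ⟨j, hj, hd⟩⟩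

theorem sn_add (a b : ZMod 2) : sn (a + b) = sn a * sn b := by
  revert a b
  decide

theorem sn_bz (b : Bool) : sn (bz b) = sb b := by cases b <;> decide

theorem sb_dec {n : ℤ} (h : n = 1 ∨ n = -1) : sb (decide (n = -1)) = n := by
  rcases h with h | h <;> rw [h] <;> decide

/-- the symbol of the class `3` -/
def kD (A B : ℤ) (c : Fin 3) : ℤ :=
  if c = 0 then -(B * (A - B)) else if c = 1 then A * (A - B) else A * B

theorem dz_eq (D A B : ℤ) (c : Fin 3) : dz D A B c =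
    (if c = 0 then (sp (kz D A B 0) A : ℤ) + sp (kD A B 0) D -
        Pool.Agent.L7h19.IS.om B - Pool.Agent.L7h19.IS.om (A - B) - Pool.Agent.L7h19.IS.om D
      else if c = 1 then (sp (kz D A B 1) B : ℤ) + sp (kD A B 1) D -
        Pool.Agent.L7h19.IS.om A - Pool.Agent.L7h19.IS.om (A - B) - Pool.Agent.L7h19.IS.om D
      else (sp (kz D A B 2) (A - B) : ℤ) + sp (kD A B 2) D -
        Pool.Agent.L7h19.IS.om A - Pool.Agent.L7h19.IS.om B - Pool.Agent.L7h19.IS.om D) := rfl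

/-- the symbol of the class `3` from the three patterns -/
theorem kD_sn {p : ℕ} (hodd : Odd p) {E : Fin 3 → Finset ℕ} {D A B q : ℤ}
    (hE : ∀ i, (p ∈ E i ↔ jacobiSym (F3 D A B i / p) p = -1))
    (h0 : F3 D A B 0 / p = q * A) (h1 : F3 D A B 1 / p = q * B) (h2 : F3 D A B 2 / p = q * (A - B))
    (hq : jacobiSym (q * q) p = 1)
    (hj : ∀ i, jacobiSym (F3 D A B i / p) p = 1 ∨ jacobiSym (F3 D A B i / p) p = -1)
    (c : Fin 3) : jacobiSym (kD A B c) p =
      sn (ph (nb E p) (m4 p) (dc c.castSucc) (dc c.castSucc)) := by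
  have hn : ∀ i, sn (nb E p i) = jacobiSym (F3 D A B i / p) p := by
    intro i
    rw [nb_bz, sn_bz]
    have : decide (p ∈ E i) = decide (jacobiSym (F3 D A B i / p) p = -1) := by
      rw [decide_eq_decide]
      exact hE i
    rw [this, sb_dec (hj i)]
  have hm : sn (m4 p) = jacobiSym (-1) p := by
    rw [m4_eq hodd, sn_bz]
    unfold sg0
    rw [sb_dec]
    apply jacobiSym.eq_one_or_neg_one
    simp
  have h11 : (1 : ZMod 2) + 1 = 0 := by decide
  have hc : c = 0 ∨ c = 1 ∨ c = 2 := by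
    revert c
    decide
  rcases hc with h | h | h
  · rw [h]
    have e : ph (nb E p) (m4 p) (dc (0 : Fin 3).castSucc) (dc (0 : Fin 3).castSucc) =
        nb E p 1 + nb E p 2 + m4 p := by
      change (1 : ZMod 2) * (1 * nb E p 0 + 1 * (nb E p 0 + nb E p 1)) +
        1 * (1 * (nb E p 0 + nb E p 2) + 1 * (nb E p 0 + m4 p)) = _
      have h4 : nb E p 0 + nb E p 0 = 0 := by
        generalize nb E p 0 = a
        revert a
        decide
      linear_combination 2 * h4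
    rw [e, sn_add, sn_add, hn, hn, hm, h1, h2, ← jacobiSym.mul_left, ← jacobiSym.mul_left]
    have e2 : q * B * (q * (A - B)) * -1 = (q * q) * kD A B 0 := by
      change _ = (q * q) * (-(B * (A - B)))
      ring
    rw [e2, jacobiSym.mul_left, hq, one_mul]
  · rw [h]
    have e : ph (nb E p) (m4 p) (dc (1 : Fin 3).castSucc) (dc (1 : Fin 3).castSucc) =
        nb E p 0 + nb E p 2 := by
      change (0 : ZMod 2) * (1 * nb E p 0 + 0 * (nb E p 0 + nb E p 1)) +
        1 * (1 * (nb E p 0 + nb E p 2) + 0 * (nb E p 0 + m4 p)) = _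
      ring
    rw [e, sn_add, hn, hn, h0, h2, ← jacobiSym.mul_left]
    have e2 : q * A * (q * (A - B)) = (q * q) * kD A B 1 := by
      change _ = (q * q) * (A * (A - B))
      ring
    rw [e2, jacobiSym.mul_left, hq, one_mul]
  · rw [h]
    have e : ph (nb E p) (m4 p) (dc (2 : Fin 3).castSucc) (dc (2 : Fin 3).castSucc) =
        nb E p 0 + nb E p 1 := by
      change (1 : ZMod 2) * (0 * nb E p 0 + 1 * (nb E p 0 + nb E p 1)) +
        0 * (0 * (nb E p 0 + nb E p 2) + 1 * (nb E p 0 + m4 p)) = _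
      ring
    rw [e, sn_add, hn, hn, h0, h1, ← jacobiSym.mul_left]
    have e2 : q * A * (q * B) = (q * q) * kD A B 2 := by
      change _ = (q * q) * (A * B)
      ring
    rw [e2, jacobiSym.mul_left, hq, one_mul]

/-- everything about the values -/
structure Hyp (cls : J → Fin 4) (a : Fin 4 → ℤ) (x : J → ℤ) (D A B : ℤ) (z : ℕ) : Prop where
  z2 : 2 ≤ z
  G : Gd z x
  a0 : ∀ c, a c ≠ 0
  aB : ∀ p : ℕ, p.Prime → z < p → ∀ c, ¬ (p : ℤ) ∣ a c
  hA : A = Fv cls a x 0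
  hB : B = Fv cls a x 1
  hC : A - B = Fv cls a x 2
  hD : D = Fv cls a x 3

section hyp

variable {cls : J → Fin 4} {a : Fin 4 → ℤ} {x : J → ℤ} {D A B : ℤ} {z y : ℕ}

theorem Hyp.aB' (h : Hyp cls a x D A B z) : ∀ p : ℕ, p.Prime → z < p → ∀ k : Fin 3,
    ¬ (p : ℤ) ∣ a 3 * a k.castSucc := by
  intro p hp hz k hd
  rcases (Nat.prime_iff_prime_int.1 hp).dvd_or_dvd hd with h1 | h1
  · exact h.aB p hp hz _ h1
  · exact h.aB p hp hz _ h1

theorem Hyp.kap_pm (h : Hyp cls a x D A B z) {p : ℕ} (hp : p.Prime) {j : J}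
    (hj : p ∣ S1 z y x j) (i : Fin 3) :
    jacobiSym (kapV (fun j => some (cls j)) (fun k => a 3 * a k.castSucc) x j i) p = 1 ∨
      jacobiSym (kapV (fun j => some (cls j)) (fun k => a 3 * a k.castSucc) x j i) p = -1 := by
  have h1 := (S1_dvd_iff hp).1 hj
  exact jac_pm' hp (kapV_nd h.G h.aB' hp (mem_PS.1 h1.1).1.1 h1.2.1 i)

/-- the symbol of `F3 i / p` -/
theorem Hyp.f3 (h : Hyp cls a x D A B z) {p : ℕ} (hp : p.Prime) {j : J}
    (hj : p ∣ S1 z y x j) (h3 : cls j = 3) (i : Fin 3) :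
    jacobiSym (F3 D A B i / p) p =
      jacobiSym (kapV (fun j => some (cls j)) (fun k => a 3 * a k.castSucc) x j i) p *
        jacobiSym (x j / p) p := by
  have h1 := (S1_dvd_iff hp).1 hj
  have h2 := symbV' (c := fun j => some (cls j)) (a := fun k => a 3 * a k.castSucc) h.G h.aB' hp
    (mem_PS.1 h1.1).1.1 h1.2.1 (by rw [h3]) i
  rw [F3_eq h.hA h.hB h.hC h.hD, jacobiSym.mul_left] at h2
  rcases h.kap_pm hp hj i with h4 | h4 <;> rw [h4] at h2 ⊢
  · linarith
  · linarith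

theorem Hyp.f3_pm (h : Hyp cls a x D A B z) {p : ℕ} (hp : p.Prime) {j : J}
    (hj : p ∣ S1 z y x j) (h3 : cls j = 3) (i : Fin 3) :
    jacobiSym (F3 D A B i / p) p = 1 ∨ jacobiSym (F3 D A B i / p) p = -1 := by
  rw [h.f3 hp hj h3 i]
  rcases h.kap_pm hp hj i with h4 | h4 <;> rcases x_div hp hj with h5 | h5 <;> rw [h4, h5] <;>
    simp

theorem Hyp.odd (h : Hyp cls a x D A B z) {p : ℕ} (hp : p.Prime) {j : J}
    (hj : p ∣ S1 z y x j) : Odd p := by
  have h1 := (mem_PS.1 ((S1_dvd_iff hp).1 hj).1).1.1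
  have h2 := h.z2
  exact hp.odd_of_ne_two (by omega)

theorem Hyp.cop (h : Hyp cls a x D A B z) : ∀ i j : J, i ≠ j →
    (S1 z y x i).Coprime (S1 z y x j) := by
  intro i j hij
  rw [Nat.coprime_iff_gcd_eq_one]
  by_contra hne
  obtain ⟨p, hp, hpd⟩ := Nat.exists_prime_and_dvd hne
  exact hij (S1_uniq h.G hp (hpd.trans (Nat.gcd_dvd_right _ _))
    (hpd.trans (Nat.gcd_dvd_left _ _)))

theorem Hyp.dat (h : Hyp cls a x D A B z) {E : Fin 3 → Finset ℕ} {E' : Finset ℕ}
    (hE : ∀ j (p : ℕ), p.Prime → p ∣ S1 z y x j →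
      (cls j ≠ 3 → (p ∈ E 0 ↔ jacobiSym (kz D A B (cls j)) p = -1)) ∧
      (cls j = 3 → ∀ i, (p ∈ E i ↔ jacobiSym (F3 D A B i / p) p = -1)))
    (hE' : ∀ j (p : ℕ), cls j = 3 → p.Prime → p ∣ S1 z y x j →
      (p ∈ E' ↔ jacobiSym (x j / p) p = -1)) (j : J) (p : ℕ) (hp : p.Prime)
    (hj : p ∣ S1 z y x j) :
    Dat (mc cls (S1 z y x)) E (cls j)
      (kapV (fun j => some (cls j)) (fun k => a 3 * a k.castSucc) x j) (decide (p ∈ E')) p := by
  refine ⟨cl_eq h.cop hp hj, fun hc => ?_, fun hc i => ?_, fun i => h.kap_pm hp hj i⟩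
  · rw [nb_bz, sg0, kapV_ne3 h.hA h.hB h.hC h.hD hc]
    congr 1
    rw [decide_eq_decide]
    exact (hE j p hp hj).1 hc
  · have h1 : decide (p ∈ E i) = decide (jacobiSym (F3 D A B i / p) p = -1) := by
      rw [decide_eq_decide]
      exact (hE j p hp hj).2 hc i
    have h2 : decide (p ∈ E') = decide (jacobiSym (x j / p) p = -1) := by
      rw [decide_eq_decide]
      exact hE' j p hc hp hj
    rw [nb_bz, h1, h2, h.f3 hp hj hc i, sg0]
    rcases h.kap_pm hp hj i with h4 | h4 <;> rcases x_div hp hj with h5 | h5 <;> rw [h4, h5] <;>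
      decide

/-- the primes of `Ms` are counted in `sp` -/
theorem Hyp.sp_le (h : Hyp cls a x D A B z) {E : Fin 3 → Finset ℕ}
    (hE : ∀ j (p : ℕ), p.Prime → p ∣ S1 z y x j →
      (cls j ≠ 3 → (p ∈ E 0 ↔ jacobiSym (kz D A B (cls j)) p = -1)) ∧
      (cls j = 3 → ∀ i, (p ∈ E i ↔ jacobiSym (F3 D A B i / p) p = -1))) (c : Fin 3) :
    (Ms (mc cls (S1 z y x)) E c).primeFactors.card ≤
      sp (kz D A B c.castSucc) (Fv cls a x c.castSucc) + sp (kD A B c) D := by
  have hc3 : c.castSucc ≠ 3 := by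
    revert c
    decide
  have hF0 : ∀ c, Fv cls a x c ≠ 0 := fun c => by
    unfold Fv
    exact mul_ne_zero (h.a0 c) (prod_ne_zero_iff.2 fun j _ => h.G.1 j)
  have hdF : ∀ (j : J) (p : ℕ), p.Prime → p ∣ S1 z y x j → (p : ℤ) ∣ Fv cls a x (cls j) := by
    intro j p hp hj
    have h1 := (S1_dvd_iff hp).1 hj
    unfold Fv
    have hmem : j ∈ univ.filter (fun l => cls l = cls j) := mem_filter.2 ⟨mem_univ j, rfl⟩
    exact dvd_mul_of_dvd_right (h1.2.1.trans (dvd_prod_of_mem x hmem)) _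
  unfold sp
  refine (card_le_card ?_).trans (card_union_le _ _)
  intro p hp
  have hpp := Nat.prime_of_mem_primeFactors hp
  have hd := Nat.dvd_of_mem_primeFactors hp
  unfold Ms at hd
  obtain ⟨q, hq, hpq⟩ := (hpp.prime.dvd_finsetProd_iff _).1 hd
  rw [mem_filter] at hq
  have hqp := Nat.prime_of_mem_primeFactors hq.1
  have hqe : p = q := (Nat.prime_dvd_prime_iff_eq hpp hqp).1 hpq
  subst hqe
  have hdv := Nat.dvd_of_mem_primeFactors hq.1
  have hq2 := hq.2
  rw [mem_union, mem_filter, mem_filter]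
  rcases (Nat.Prime.dvd_mul hpp).1 hdv with h5 | h5
  · left
    obtain ⟨j, hj, hjd⟩ := (dvd_mc hpp).1 h5
    have hzp := (mem_PS.1 ((S1_dvd_iff hpp).1 hjd).1).1.1
    have hz2 := h.z2
    have hjd' := hdF j p hpp hjd
    rw [hj] at hjd'
    have hj3 : cls j ≠ 3 := by rw [hj]; exact hc3
    refine ⟨Nat.mem_primeFactors.2 ⟨hpp, Int.natCast_dvd.1 hjd', Int.natAbs_ne_zero.2 (hF0 _)⟩,
      by omega, ?_⟩
    rw [cl_eq h.cop hpp hjd, dg, if_neg hj3, if_pos] at hq2
    · have h6 := (hE j p hpp hjd).1 hj3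
      rw [nb_bz, bz_zero, decide_eq_false_iff_not] at hq2
      have h7 := h.kap_pm hpp hjd 0
      rw [kapV_ne3 h.hA h.hB h.hC h.hD hj3] at h7
      rw [← hj]
      rcases h7 with h8 | h8
      · exact h8
      · exact absurd (h6.2 h8) hq2
    · exact ⟨(by decide : ∀ c : Fin 3, dc c.castSucc ≠ 0) c,
        (by decide : ∀ c : Fin 3, dc c.castSucc ≠ 0) c⟩
  · right
    obtain ⟨j, hj, hjd⟩ := (dvd_mc hpp).1 h5
    have h1 := (S1_dvd_iff hpp).1 hjd
    have hzp := (mem_PS.1 h1.1).1.1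
    have hz2 := h.z2
    have hjd' := hdF j p hpp hjd
    rw [hj, ← h.hD] at hjd'
    have hD0 : D ≠ 0 := by rw [h.hD]; exact hF0 3
    refine ⟨Nat.mem_primeFactors.2 ⟨hpp, Int.natCast_dvd.1 hjd', Int.natAbs_ne_zero.2 hD0⟩,
      by omega, ?_⟩
    rw [cl_eq h.cop hpp hjd, dg, if_pos hj] at hq2
    have hpi : Prime (p : ℤ) := Nat.prime_iff_prime_int.1 hpp
    have hp0 : (p : ℤ) ≠ 0 := hpi.ne_zero
    obtain ⟨q0, hq0⟩ := h1.2.1
    have hmem : j ∈ univ.filter (fun l => cls l = 3) := mem_filter.2 ⟨mem_univ _, hj⟩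
    obtain ⟨r, hr⟩ : ∃ r, r = a 3 * ∏ l ∈ (univ.filter (fun l => cls l = 3)).erase j, x l :=
      ⟨_, rfl⟩
    have hDs : D = p * (q0 * r) := by
      rw [h.hD, hr]
      unfold Fv
      rw [← mul_prod_erase _ _ hmem, hq0]
      ring
    have hr0 : ¬ (p : ℤ) ∣ r := by
      rw [hr]
      intro h8
      rcases hpi.dvd_or_dvd h8 with h9 | h9
      · exact h.aB p hpp hzp 3 h9
      · obtain ⟨l, hl, hl2⟩ := (hpi.dvd_finsetProd_iff _).1 h9
        refine h.G.2 p hpp hzp j l ?_ ⟨h1.2.1, hl2⟩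
        rintro rfl
        exact notMem_erase _ _ hl
    have hq00 : ¬ (p : ℤ) ∣ q0 := by
      intro h8
      apply h1.2.2
      rw [hq0, pow_two]
      exact mul_dvd_mul_left _ h8
    have hqr : ¬ (p : ℤ) ∣ q0 * r := fun h8 => by
      rcases hpi.dvd_or_dvd h8 with h9 | h9
      · exact hq00 h9
      · exact hr0 h9
    have hdiv : ∀ n : ℤ, D * n / p = (q0 * r) * n := by
      intro n
      rw [hDs, mul_assoc, Int.mul_ediv_cancel_left _ hp0]
    rw [kD_sn (h.odd hpp hjd) ((hE j p hpp hjd).2 hj) (hdiv A) (hdiv B) (hdiv (A - B))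
      (by rw [← pow_two]; exact jac_sq hpp hqr) (h.f3_pm hpp hjd hj) c, hq2]
    rfl

end hyp

/-- **S_RKD** -/
theorem s_RKD : S_RKD := by
  classical
  intro J _ _ cls a G x D A B z y X k d E hz2 hG ha hB hA hBe hC hD hb hX hy hk hE
  have h : Hyp cls a x D A B z := ⟨hz2, hG, ha, hB, hA, hBe, hC, hD⟩
  obtain ⟨E', hE'⟩ : ∃ E' : Finset ℕ, ∀ j (p : ℕ), cls j = 3 → p.Prime → p ∣ S1 z y x j →
      (p ∈ E' ↔ jacobiSym (x j / p) p = -1) := by
    refine ⟨(∏ j, S1 z y x j).primeFactors.filter (fun p => ∃ j, p ∣ S1 z y x j ∧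
      jacobiSym (x j / p) p = -1), ?_⟩
    intro j p _ hp hj
    rw [mem_filter]
    constructor
    · rintro ⟨-, l, hl, h1⟩
      have := S1_uniq hG hp hj hl
      subst this
      exact h1
    · intro h1
      exact ⟨Nat.mem_primeFactors.2 ⟨hp, hj.trans (dvd_prod_of_mem _ (mem_univ j)),
        prod_ne_zero_iff.2 fun j _ => S1_ne j⟩, j, hj, h1⟩
  have hF3 := fun i => F3_eq hA hBe hC hD i
  have hd := stRank J (fun j => some (cls j)) (fun k => a 3 * a k.castSucc) x z y X k d hz2 hG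
    (fun k => mul_ne_zero (ha _) (ha _)) h.aB' (by
      rw [hF3, hF3, hF3]
      change D * A - D * B = D * (A - B)
      ring) hb hX hy hk E' (fun j p hc hp hj => hE' j p (Option.some_inj.1 hc) hp hj)
  rw [hF3, hF3] at hd
  change 2 ^ Module.finrank ℤ (EAB (D * A) (D * B)).toAffine.Point ≤ _ at hd
  have hNN : NL (∏ j, S1 z y x j) (LLso (fun j => some (cls j))
      (kapV (fun j => some (cls j)) (fun k => a 3 * a k.castSucc) x) (S1 z y x) E') ≤
      N0 (mc cls (S1 z y x)) E :=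
    NL_N0 h.cop (fun j => S1_sqf j) (fun j p hp hj => h.odd hp hj) (h.dat hE hE')
  set T : ℕ := z + Fintype.card J * (d * k) + ∑ j, (S2 z y x j).primeFactors.card with hT
  -- the exponents
  have hdl : ∀ c, dl (mc cls (S1 z y x)) E c ≤ dz D A B c + 3 * T := by
    intro c
    have h1 := h.sp_le hE c
    have hom : ∀ c, Pool.Agent.L7h19.IS.om (Fv cls a x c) ≤
        (mc cls (S1 z y x) c).primeFactors.card + T := om_le hG hB hy hb hk
    have hMo := Mo_card (cls := cls) h.cop (fun j => S1_ne (z := z) (y := y) (f := x) j) c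
    have h0 := hom 0
    have h1' := hom 1
    have h2 := hom 2
    have h3 := hom 3
    rw [← hA] at h0
    rw [← hBe] at h1'
    rw [← hC] at h2
    rw [← hD] at h3
    unfold dl
    rw [dz_eq]
    have hc : c = 0 ∨ c = 1 ∨ c = 2 := by
      clear h1 hMo
      revert c
      decide
    rcases hc with rfl | rfl | rfl
    · have h4 : univ.filter (fun e : Fin 4 => e ≠ (0 : Fin 3).castSucc) = {1, 2, 3} := by decide
      rw [h4, sum_insert (by decide), sum_insert (by decide), sum_singleton] at hMo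
      change _ ≤ sp (kz D A B 0) (Fv cls a x 0) + _ at h1
      rw [← hA] at h1
      rw [if_pos rfl, hMo]
      push_cast
      omega
    · have h4 : univ.filter (fun e : Fin 4 => e ≠ (1 : Fin 3).castSucc) = {0, 2, 3} := by decide
      rw [h4, sum_insert (by decide), sum_insert (by decide), sum_singleton] at hMo
      change _ ≤ sp (kz D A B 1) (Fv cls a x 1) + _ at h1
      rw [← hBe] at h1
      rw [if_neg (by decide), if_pos rfl, hMo]
      push_cast
      omega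
    · have h4 : univ.filter (fun e : Fin 4 => e ≠ (2 : Fin 3).castSucc) = {0, 1, 3} := by decide
      rw [h4, sum_insert (by decide), sum_insert (by decide), sum_singleton] at hMo
      change _ ≤ sp (kz D A B 2) (Fv cls a x 2) + _ at h1
      rw [← hC] at h1
      rw [if_neg (by decide), if_neg (by decide), hMo]
      push_cast
      omega
  have hex : ex G (mc cls (S1 z y x)) E ≤ ez G D A B + 3 * T := by
    unfold ex
    refine Finset.sup_le fun c hc => ?_
    have h1 := hdl c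
    have h2 : (dz D A B c).toNat ≤ ez G D A B := by
      unfold ez
      exact Finset.le_sup (f := fun c => (dz D A B c).toNat) hc
    omega
  set R := Module.finrank ℤ (EAB (D * A) (D * B)).toAffine.Point with hR
  set N := N0 (mc cls (S1 z y x)) E with hN
  set e := ex G (mc cls (S1 z y x)) E with he
  set e' := ez G D A B with he'
  have h1 : 2 ^ R ≤ 4 ^ (T + 2) * N := by
    refine hd.trans (Nat.mul_le_mul (le_of_eq ?_) hNN)
    rw [← pow_mul, ← pow_add, ← pow_add]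
    congr 1
    rw [hT]
    ring
  have h2 : (2 : ℝ) ^ R ≤ 4 ^ (T + 2) * N := by exact_mod_cast h1
  have hfac : (64 : ℝ) ^ (z + 2) * (64 ^ (d * Fintype.card J)) ^ k *
      64 ^ (∑ j, (S2 z y x j).primeFactors.card) = 64 ^ (T + 2) := by
    rw [← pow_mul, ← pow_add, ← pow_add]
    congr 1
    rw [hT]
    ring
  unfold gF
  rw [hfac, ← hN, ← he, Real.rpow_sub (by norm_num), Real.rpow_natCast, Real.rpow_natCast,
    div_le_iff₀ (by positivity)]
  have h3 : (2 : ℝ) ^ e ≤ 2 ^ e' * 16 ^ (T + 2) := by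
    calc (2 : ℝ) ^ e ≤ 2 ^ (e' + 3 * T) := pow_le_pow_right₀ (by norm_num) hex
      _ = 2 ^ e' * 8 ^ T := by rw [pow_add, pow_mul]; norm_num
      _ ≤ 2 ^ e' * 16 ^ (T + 2) := by
          refine mul_le_mul_of_nonneg_left ?_ (by positivity)
          exact (pow_le_pow_left₀ (by norm_num) (by norm_num) T).trans
            (pow_le_pow_right₀ (by norm_num) (by omega))
  have h4 : (64 : ℝ) ^ (T + 2) = 4 ^ (T + 2) * 16 ^ (T + 2) := by
    rw [← mul_pow]; norm_num
  have hp : (0 : ℝ) < 2 ^ e := by positivity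
  calc (2 : ℝ) ^ R ≤ 4 ^ (T + 2) * N := h2
    _ = 4 ^ (T + 2) * (N / 2 ^ e) * 2 ^ e := by field_simp
    _ ≤ 4 ^ (T + 2) * (N / 2 ^ e) * (2 ^ e' * 16 ^ (T + 2)) := by
        refine mul_le_mul_of_nonneg_left h3 (by positivity)
    _ = 64 ^ (T + 2) * (N / 2 ^ e) * 2 ^ e' := by rw [h4]; ring

end Pool.Agent.L7h89.FD
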